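import Mathlib
import Pool.Agent.Helper16.NR.Stmts

/-! RK: two points with good residues modulo `5` and `11` are independent. -/

set_option autoImplicit false

namespace Pool.Helper16.NR

/-- the coefficients in terms of the two points -/
theorem rk_coef {F : Type*} [Field F] {al be a b r : F} (hab : a ≠ b)
    (h1 : r ^ 2 = a ^ 3 + al * a + be) (h2 : r ^ 2 = b ^ 3 + al * b + be) :
    al = -(a ^ 2 + a * b + b ^ 2) ∧ be = r ^ 2 + a * b * (a + b) := by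
  have h3 : (a - b) * (al + (a ^ 2 + a * b + b ^ 2)) = 0 := by linear_combination h2 - h1
  have h4 : al = -(a ^ 2 + a * b + b ^ 2) := by
    rcases mul_eq_zero.1 h3 with h | h
    · exact absurd (sub_eq_zero.1 h) hab
    · linear_combination h
  refine ⟨h4, ?_⟩
  subst h4
  linear_combination -h1

/-- nonsquares -/
theorem rk_nsq {F : Type*} [Field F] {c u : F} (hu : u ≠ 0) (h : ¬ IsSquare c) :
    ¬ IsSquare (c / u ^ 2) := by
  rintro ⟨d, hd⟩
  apply h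
  refine ⟨d * u, ?_⟩
  rw [div_eq_iff (pow_ne_zero 2 hu)] at hd
  rw [hd]
  ring

/-- the third nonsquare -/
theorem rk_third {F : Type*} [Field F] {a b e r : F} (hr : r ≠ 0)
    (he : e ^ 3 - (a ^ 2 + a * b + b ^ 2) * e + (r ^ 2 + a * b * (a + b)) = 0)
    (h : ¬ IsSquare ((a - e) * (b - e))) : ¬ IsSquare (-(a + b) - e) := by
  have h1 : (a - e) * (b - e) * (-(a + b) - e) = r ^ 2 := by linear_combination -he
  have h2 : -(a + b) - e ≠ 0 := by
    intro h2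
    rw [h2, mul_zero] at h1
    exact hr (pow_eq_zero_iff (by norm_num) |>.1 h1.symm)
  rintro ⟨d, hd⟩
  apply h
  have hd0 : d ≠ 0 := by
    rintro rfl
    rw [mul_zero] at hd
    exact h2 hd
  refine ⟨r / d, ?_⟩
  rw [hd] at h1
  field_simp
  linear_combination h1

theorem rk_eq (A B u x y : ℤ) (hu : (u : ℚ) ≠ 0) (h : y ^ 2 = x ^ 3 + A * u ^ 4 * x + B * u ^ 6)
    (hD : 4 * A ^ 3 + 27 * B ^ 2 ≠ 0) :
    ((cur A B).toAffine).Nonsingular ((x : ℚ) / (u : ℚ) ^ 2) ((y : ℚ) / (u : ℚ) ^ 3) := by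
  have hΔ : ((cur A B).toAffine).Δ ≠ 0 := by
    have e : ((cur A B).toAffine).Δ = -16 * ((4 * A ^ 3 + 27 * B ^ 2 : ℤ) : ℚ) := by
      simp only [WeierstrassCurve.Δ, WeierstrassCurve.b₂, WeierstrassCurve.b₄,
        WeierstrassCurve.b₆, WeierstrassCurve.b₈, cur]
      push_cast
      ring
    rw [e]
    exact mul_ne_zero (by norm_num) (by exact_mod_cast hD)
  rw [← WeierstrassCurve.Affine.equation_iff_nonsingular_of_Δ_ne_zero hΔ,
    WeierstrassCurve.Affine.equation_iff]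
  have hq : (y : ℚ) ^ 2 = (x : ℚ) ^ 3 + A * (u : ℚ) ^ 4 * x + B * (u : ℚ) ^ 6 := by
    exact_mod_cast h
  simp only [cur, zero_mul, add_zero]
  field_simp
  linear_combination hq

theorem rk_add (A B : ℤ) (x1 y1 x2 y2 : ℚ) (h1 : ((cur A B).toAffine).Nonsingular x1 y1)
    (h2 : ((cur A B).toAffine).Nonsingular x2 y2) (hx : x1 ≠ x2) :
    ∃ (x3 y3 : ℚ) (h3 : ((cur A B).toAffine).Nonsingular x3 y3),
      WeierstrassCurve.Affine.Point.some x1 y1 h1 + WeierstrassCurve.Affine.Point.some x2 y2 h2 =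
        WeierstrassCurve.Affine.Point.some x3 y3 h3 ∧
      x3 = ((y1 - y2) / (x1 - x2)) ^ 2 - x1 - x2 := by
  refine ⟨_, _, _, WeierstrassCurve.Affine.Point.add_of_X_ne hx, ?_⟩
  rw [WeierstrassCurve.Affine.slope_of_X_ne hx]
  simp only [WeierstrassCurve.Affine.addX, cur]
  ring

theorem st_RK (h1 : ST_CERT) (h2 : ST_TOR) (h3 : ST_RK2) : ST_RK := by
  intro A B u x1 y1 x2 y2 hP1 hP2 hD h5 hR5 h11 hy hR11
  haveI : Fact (Nat.Prime 5) := ⟨by norm_num⟩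
  haveI : Fact (Nat.Prime 11) := ⟨by norm_num⟩
  -- modulo 5
  obtain ⟨hab5, hno⟩ := hR5
  have c1 : (y1 : ZMod 5) ^ 2 = (x1 : ZMod 5) ^ 3 + ((A : ZMod 5) * (u : ZMod 5) ^ 4) * x1 +
      (B : ZMod 5) * (u : ZMod 5) ^ 6 := by exact_mod_cast congrArg (Int.cast : ℤ → ZMod 5) hP1
  have c2 : (y1 : ZMod 5) ^ 2 = (x2 : ZMod 5) ^ 3 + ((A : ZMod 5) * (u : ZMod 5) ^ 4) * x2 +
      (B : ZMod 5) * (u : ZMod 5) ^ 6 := by
    rw [h5]
    exact_mod_cast congrArg (Int.cast : ℤ → ZMod 5) hP2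
  obtain ⟨ha5, hb5⟩ := rk_coef hab5 c1 c2
  have hno' : ∀ e : ZMod 5, e ^ 3 + (A : ZMod 5) * e + (B : ZMod 5) ≠ 0 := by
    intro e he
    apply hno (e * (u : ZMod 5) ^ 2)
    unfold fp
    rw [← hb5, sub_eq_add_neg, ← neg_mul, ← ha5]
    linear_combination (u : ZMod 5) ^ 6 * he
  -- modulo 11
  obtain ⟨hab, hdis, ⟨e1, he1, hs1⟩, ⟨e2, he2, hs2⟩, ⟨e3, he3, hs3⟩⟩ := hR11
  have d1 : (y1 : ZMod 11) ^ 2 = (x1 : ZMod 11) ^ 3 + ((A : ZMod 11) * (u : ZMod 11) ^ 4) * x1 +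
      (B : ZMod 11) * (u : ZMod 11) ^ 6 := by exact_mod_cast congrArg (Int.cast : ℤ → ZMod 11) hP1
  have d2 : (y1 : ZMod 11) ^ 2 = (x2 : ZMod 11) ^ 3 + ((A : ZMod 11) * (u : ZMod 11) ^ 4) * x2 +
      (B : ZMod 11) * (u : ZMod 11) ^ 6 := by
    rw [h11]
    exact_mod_cast congrArg (Int.cast : ℤ → ZMod 11) hP2
  obtain ⟨ha, hb⟩ := rk_coef hab d1 d2
  have hu : (u : ZMod 11) ≠ 0 := by
    intro hu
    apply hdis
    rw [← ha, ← hb, hu]
    ring
  have hu0 : (u : ℚ) ≠ 0 := by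
    intro h
    have : u = 0 := by exact_mod_cast h
    rw [this] at hu
    exact hu (by push_cast; rfl)
  have hD11 : 4 * (A : ZMod 11) ^ 3 + 27 * (B : ZMod 11) ^ 2 ≠ 0 := by
    intro h
    apply hdis
    rw [← ha, ← hb]
    linear_combination (u : ZMod 11) ^ 12 * h
  have root : ∀ e : ZMod 11, fp (x1 : ZMod 11) (x2 : ZMod 11) (y1 : ZMod 11) e = 0 →
      (e / (u : ZMod 11) ^ 2) ^ 3 + (A : ZMod 11) * (e / (u : ZMod 11) ^ 2) + (B : ZMod 11) = 0 := by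
    intro e he
    unfold fp at he
    rw [← hb, sub_eq_add_neg, ← neg_mul, ← ha] at he
    field_simp
    linear_combination he
  have N1 := rk_eq A B u x1 y1 hu0 hP1 hD
  have N2 := rk_eq A B u x2 y2 hu0 hP2 hD
  have hxne : (x1 : ℚ) ≠ (x2 : ℚ) := by
    intro h
    have h' : x1 = x2 := by exact_mod_cast h
    exact hab (by rw [h'])
  have hxne' : (x1 : ℚ) / (u : ℚ) ^ 2 ≠ (x2 : ℚ) / (u : ℚ) ^ 2 := by
    intro h
    apply hxne
    rw [div_left_inj' (pow_ne_zero 2 hu0)] at h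
    exact h
  refine h3 _ (WeierstrassCurve.Affine.Point.some _ _ N1)
    (WeierstrassCurve.Affine.Point.some _ _ N2) (h2 5 A B hno') ?_ ?_ ?_
  · refine h1 11 (by norm_num) A B (e1 / (u : ZMod 11) ^ 2) hD11 (root e1 he1) _ _ N1 x1 (u ^ 2)
      (by push_cast; exact pow_ne_zero 2 hu) (by push_cast; rfl) ?_
    push_cast
    rw [← sub_div]
    exact rk_nsq hu hs1
  · refine h1 11 (by norm_num) A B (e2 / (u : ZMod 11) ^ 2) hD11 (root e2 he2) _ _ N2 x2 (u ^ 2)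
      (by push_cast; exact pow_ne_zero 2 hu) (by push_cast; rfl) ?_
    push_cast
    rw [← sub_div]
    exact rk_nsq hu hs2
  · obtain ⟨x3, y3, N3, hsum, hx3⟩ := rk_add A B _ _ _ _ N1 N2 hxne'
    rw [hsum]
    refine h1 11 (by norm_num) A B (e3 / (u : ZMod 11) ^ 2) hD11 (root e3 he3) _ _ N3
      ((y1 - y2) ^ 2 - (x1 + x2) * (x1 - x2) ^ 2) (u ^ 2 * (x1 - x2) ^ 2) ?_ ?_ ?_
    · push_cast
      exact mul_ne_zero (pow_ne_zero 2 hu) (pow_ne_zero 2 (sub_ne_zero.2 hab))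
    · rw [hx3]
      push_cast
      have hx12 : (x1 : ℚ) - x2 ≠ 0 := sub_ne_zero.2 hxne
      have e : (x1 : ℚ) / (u : ℚ) ^ 2 - (x2 : ℚ) / (u : ℚ) ^ 2 = (x1 - x2) / (u : ℚ) ^ 2 := by
        rw [sub_div]
      rw [e]
      field_simp
      ring
    · push_cast
      rw [← h11, sub_self]
      have hx12 : (x1 : ZMod 11) - x2 ≠ 0 := sub_ne_zero.2 hab
      have e : ((0 : ZMod 11) ^ 2 - ((x1 : ZMod 11) + x2) * ((x1 : ZMod 11) - x2) ^ 2) /
          ((u : ZMod 11) ^ 2 * ((x1 : ZMod 11) - x2) ^ 2) - e3 / (u : ZMod 11) ^ 2 =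
          (-((x1 : ZMod 11) + x2) - e3) / (u : ZMod 11) ^ 2 := by
        field_simp
        ring
      rw [e]
      unfold fp at he3
      exact rk_nsq hu (rk_third hy he3 hs3)

end Pool.Helper16.NR
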